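import Pool.Agent.X197.OscE

open Pool.Agent.X197.Osc

namespace Pool.Agent.Results.MP_8e06fd_an.OscillatingSpectrum

/-- Every nonempty `F_σ` set `M ⊆ [0,1]` is the oscillating spectrum of a closed subspace of
`C[0,1]` that is not complemented. -/
theorem result (M : Set unitInterval) (hne : M.Nonempty)
    (hM : ∃ C : ℕ → Set unitInterval, (∀ n, IsClosed (C n)) ∧ M = ⋃ n, C n) :
    ∃ X : Submodule ℝ C(unitInterval, ℝ), IsClosed (X : Set C(unitInterval, ℝ)) ∧
      ¬ Complemented X ∧ Om X = M := by
  obtain ⟨C, hC, hCM⟩ := hM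
  rcases (interior M).eq_empty_or_nonempty with h | ⟨t, ht⟩
  · obtain ⟨t0, ht0⟩ := hne
    exact case_A M h t0 ht0 C hC hCM
  · obtain ⟨ε, hε, hball⟩ := Metric.isOpen_iff.mp isOpen_interior t ht
    have hsub : ∀ s : unitInterval, |(s : ℝ) - t| < ε → s ∈ M := by
      intro s hs
      refine interior_subset (hball ?_)
      rw [Metric.mem_ball, Subtype.dist_eq, Real.dist_eq]
      exact hs
    set l : ℝ := min (ε / 2) (1 / 2) with hl
    have hl0 : 0 < l := lt_min (half_pos hε) (by norm_num)
    have hle : l ≤ ε / 2 := min_le_left _ _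
    have hl2 : l ≤ 1 / 2 := min_le_right _ _
    by_cases ht2 : (t : ℝ) ≤ 1 / 2
    · refine case_B M t ⟨t + l, by linarith [t.2.1], by linarith⟩ ?_ ?_ C hC hCM
      · show (t : ℝ) < t + l
        linarith
      · intro s h1 h2
        have h3 : (s : ℝ) ≤ t + l := h2
        refine hsub s ?_
        rw [abs_lt]
        constructor <;> linarith
    · push Not at ht2
      refine case_B M ⟨t - l, by linarith, by linarith [t.2.2]⟩ t ?_ ?_ C hC hCM
      · show (t : ℝ) - l < t
        linarith
      · intro s h1 h2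
        have h3 : (t : ℝ) - l ≤ s := h1
        refine hsub s ?_
        rw [abs_lt]
        constructor <;> linarith

end Pool.Agent.Results.MP_8e06fd_an.OscillatingSpectrum
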